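import Pool.Agent.MWGQ.StmtsC

/-!
# Row CLF of block MWGQ: closure properties of the crossing hull pentagon for period `n`
-/

set_option autoImplicit false

namespace Pool.Agent.MWGQ.H19C

open Pool.Agent.Helper14_MV Pool.Agent.Helper2_MV Pool.Agent.MWGQ
open Pool.Agent.MWK (pre)
open Pool.Agent.MWGN (Nm WC WT Tau Ns nl sg nn gh gh_succ mem_gh Ins WR Nr nr NF tw KF Kx Ky)

theorem gh_fac (g h : ℕ → List ℕ) : ∀ (N i : ℕ), i < N →
    ∃ u v, gh g h N = u ++ (g i ++ (h i ++ v))
  | 0, i, hi => by omega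
  | N + 1, i, hi => by
    rw [gh_succ]
    by_cases h1 : i = N
    · subst h1
      exact ⟨gh g h i, [], by simp⟩
    · obtain ⟨u, v, hv⟩ := gh_fac g h N i (by omega)
      rw [hv]
      exact ⟨u, v ++ (g N ++ h N), by simp⟩

/-- a letter with two occurrences in a content has two occurrences in the middle part -/
theorem count_h {g h : ℕ → List ℕ} {N i c : ℕ} (hi : i < N) (h2 : 2 ≤ (h i).count c) :
    2 ≤ (gh g h N).count c := by
  obtain ⟨u, v, hv⟩ := gh_fac g h N i hi
  rw [hv]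
  simp only [List.count_append]
  omega

theorem two_mid {A M R e : List ℕ} {g h : ℕ → List ℕ} {N : ℕ} (hM : M = gh g h N)
    (hR : ∀ i < N, ∃ R1 R2, R = R1 ++ (g i ++ R2)) (hh : ∀ i < N, ∀ c ∈ h i, 2 ≤ M.count c) :
    ∀ c ∈ M, 2 ≤ (A ++ ((e ++ e) ++ (M ++ ((e ++ e) ++ R)))).count c := by
  intro c hc
  simp only [List.count_append]
  have hc' := hc
  rw [hM] at hc'
  obtain ⟨i, hi, h1⟩ := mem_gh.1 hc'
  rcases h1 with h1 | h1
  · obtain ⟨R1, R2, hRR⟩ := hR i hi
    have e1 : 0 < M.count c := List.count_pos_iff.mpr hc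
    have e2 : 0 < (g i).count c := List.count_pos_iff.mpr h1
    have e3 : R.count c = R1.count c + ((g i).count c + R2.count c) := by
      rw [hRR]
      simp only [List.count_append]
    omega
  · have := hh i hi c h1
    omega

theorem pw_succ (k : ℕ) (u : List ℕ) : pw (k + 1) u = u ++ pw k u := by
  simp [pw, List.replicate_succ]

theorem mem_pw {k c : ℕ} {u : List ℕ} (h : c ∈ pw k u) : c ∈ u := by
  unfold pw at h
  obtain ⟨l, hl, hc⟩ := List.mem_flatten.mp h
  rw [List.eq_of_mem_replicate hl] at hc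
  exact hc

theorem mem_pw_of {k c : ℕ} {u : List ℕ} (hk : 1 ≤ k) (h : c ∈ u) : c ∈ pw k u := by
  obtain ⟨k', rfl⟩ := Nat.exists_eq_add_of_le' hk
  rw [pw_succ]
  exact List.mem_append_left _ h

theorem count_pw (c : ℕ) (u : List ℕ) : ∀ k : ℕ, (pw k u).count c = k * u.count c
  | 0 => by simp [pw]
  | k + 1 => by
    rw [pw_succ, List.count_append, count_pw c u k]
    ring

theorem pw_two {n c : ℕ} (hn : 1 ≤ n) {u : List ℕ} (h : c ∈ pw (n + 1) u) :
    2 ≤ (pw (n + 1) u).count c := by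
  have h1 : 0 < u.count c := List.count_pos_iff.mpr (mem_pw h)
  obtain ⟨n', rfl⟩ := Nat.exists_eq_add_of_le' hn
  rw [pw_succ, pw_succ, List.count_append, List.count_append]
  omega

theorem dbl_two {e : List ℕ} {c : ℕ} (h : c ∈ e ++ e) : 2 ≤ (e ++ e).count c := by
  rw [List.mem_append, or_self] at h
  have := List.count_pos_iff.mpr h
  rw [List.count_append]
  omega

theorem dp_two {n : ℕ} (hn : 1 ≤ n) (f : ℕ → List ℕ) (a s : Bool) (i c : ℕ)
    (h : c ∈ dp n f a s i) : 2 ≤ (dp n f a s i).count c := by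
  unfold dp at h ⊢
  rw [List.mem_append, List.mem_append] at h
  rw [List.count_append, List.count_append]
  rcases h with h | h | h
  · have := pw_two hn h
    omega
  · cases a with
    | false => exact absurd h (by simp)
    | true =>
      rw [if_pos rfl] at h
      have := dbl_two h
      rw [if_pos rfl]
      omega
  · cases s with
    | false => exact absurd h (by simp)
    | true =>
      rw [if_pos rfl] at h
      have := dbl_two h
      rw [if_pos rfl]
      omega

/-- contents of the first form -/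
def hY (n : ℕ) (f : ℕ → List ℕ) (r : ℕ) (a s : Bool) : ℕ → List ℕ :=
  fun i => if i < r then dp n f a s i else if i = r then pw n (f 0) ++ pw n (f 0) else []

/-- contents of the second form -/
def hX (n : ℕ) (f : ℕ → List ℕ) (r : ℕ) (a s : Bool) : ℕ → List ℕ :=
  fun i => if i = 0 then pw n (f 1) ++ pw n (f 1) else if i ≤ r then dp n f a s (i - 1) else []

theorem hY_two {n : ℕ} (hn : 1 ≤ n) (f : ℕ → List ℕ) (r : ℕ) (a s : Bool) (i c : ℕ)
    (h : c ∈ hY n f r a s i) : 2 ≤ (hY n f r a s i).count c := by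
  unfold hY at h ⊢
  split_ifs at h ⊢
  · exact dp_two hn f a s i c h
  · exact dbl_two h
  · exact absurd h List.not_mem_nil

theorem hX_two {n : ℕ} (hn : 1 ≤ n) (f : ℕ → List ℕ) (r : ℕ) (a s : Bool) (i c : ℕ)
    (h : c ∈ hX n f r a s i) : 2 ≤ (hX n f r a s i).count c := by
  unfold hX at h ⊢
  split_ifs at h ⊢
  · exact dbl_two h
  · exact dp_two hn f a s (i - 1) c h
  · exact absurd h List.not_mem_nil

theorem rf_iff {n r : ℕ} {u v : List ℕ} (h : ∀ c, u.count c ≡ v.count c [MOD n]) :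
    RF n r u ↔ RF n r v := by
  unfold RF
  constructor
  · rintro ⟨h1, h2⟩
    exact ⟨fun i hi => (h _).symm.trans (h1 i hi), fun i hi hi' => (h _).symm.trans (h2 i hi hi')⟩
  · rintro ⟨h1, h2⟩
    exact ⟨fun i hi => (h _).trans (h1 i hi), fun i hi hi' => (h _).trans (h2 i hi hi')⟩

/-- insertion of `n`-th powers does not change the residues -/
theorem res_ins (hinp : MWGN.InpStmt) {n k r : ℕ} {x A M N R u v : List ℕ}
    (hI : Ins (pw n x ++ pw n x) M N k)
    (hu : u = A ++ ((pw n x ++ pw n x) ++ (M ++ ((pw n x ++ pw n x) ++ R))))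
    (hv : v = A ++ ((pw n x ++ pw n x) ++ (N ++ ((pw n x ++ pw n x) ++ R)))) :
    RF n r u ↔ RF n r v := by
  apply rf_iff
  intro c
  have h1 := (hinp _ _ _ _ hI).1 c
  have h2 : v.count c = u.count c + n * (k * (2 * x.count c)) := by
    rw [hu, hv]
    simp only [List.count_append, count_pw] at h1 ⊢
    rw [h1]
    ring
  rw [h2]
  unfold Nat.ModEq
  rw [Nat.add_mul_mod_self_left]

theorem clf (h1 : FofStmt) (hinp : MWGN.InpStmt) (h2 : MWGN.KfiStmt) (h3 : MWGN.StyStmt)
    (h4 : MWGN.StxStmt) (h5 : MWGN.StrStmt) : ClfStmt := by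
  intro n hn τ r hr hτ f p q
  obtain ⟨R0, hR, hYf, hXf, hIY, hIX⟩ := h1 n τ r hr hτ f
  -- the first form
  have fY : ∀ a s : Bool, p ++ (wf n τ r a s).flatMap f ++ q =
      (p ++ (pw n (f 0) ++ (pw n (f 0) ++ f (NF.L 0)))) ++ ((pw n (f 1) ++ pw n (f 1)) ++
        (gh (fun i => f (NF.L (i + 1))) (hY n f r a s) (r + 2) ++
          ((pw n (f 1) ++ pw n (f 1)) ++ (R0 ++ q)))) := by
    intro a s
    rw [hYf a s]
    simp only [List.append_assoc]
    rfl
  -- the second form
  have fX : ∀ a s : Bool, p ++ (wf n τ r a s).flatMap f ++ q =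
      p ++ ((pw n (f 0) ++ pw n (f 0)) ++ (gh (fun i => f (NF.L i)) (hX n f r a s) (r + 2) ++
        ((pw n (f 0) ++ pw n (f 0)) ++ (f (NF.L (r + 2)) ++ (pw n (f 1) ++ (pw n (f 1) ++
          (R0 ++ q))))))) := by
    intro a s
    rw [hXf a s]
    simp only [List.append_assoc]
    rfl
  have hRY : ∀ i < r + 2, ∃ R1 R2, R0 ++ q = R1 ++ (f (NF.L (i + 1)) ++ R2) := by
    intro i hi
    obtain ⟨R1, R2, hRR⟩ := hR (i + 1) (by omega)
    exact ⟨R1, R2 ++ q, by rw [hRR]; simp only [List.append_assoc]⟩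
  have hRX : ∀ i < r + 2, ∃ R1 R2, f (NF.L (r + 2)) ++ (pw n (f 1) ++ (pw n (f 1) ++
      (R0 ++ q))) = R1 ++ (f (NF.L i) ++ R2) := by
    intro i hi
    obtain ⟨R1, R2, hRR⟩ := hR i (by omega)
    exact ⟨f (NF.L (r + 2)) ++ (pw n (f 1) ++ (pw n (f 1) ++ R1)), R2 ++ q, by
      rw [hRR]
      simp only [List.append_assoc]⟩
  have hhY : ∀ a s : Bool, ∀ i < r + 2, ∀ c ∈ hY n f r a s i,
      2 ≤ (gh (fun i => f (NF.L (i + 1))) (hY n f r a s) (r + 2)).count c :=
    fun a s i hi c hc => count_h hi (hY_two hn f r a s i c hc)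
  have hhX : ∀ a s : Bool, ∀ i < r + 2, ∀ c ∈ hX n f r a s i,
      2 ≤ (gh (fun i => f (NF.L i)) (hX n f r a s) (r + 2)).count c :=
    fun a s i hi c hc => count_h hi (hX_two hn f r a s i c hc)
  have hr1 : ∀ a s : Bool, hY n f r a s r = pw n (f 0) ++ pw n (f 0) := by
    intro a s
    unfold hY
    rw [if_neg (lt_irrefl r), if_pos rfl]
  have hX0 : ∀ a s : Bool, hX n f r a s 0 = pw n (f 1) ++ pw n (f 1) := by
    intro a s
    unfold hX
    rw [if_pos rfl]
  have iY : ∀ s : Bool, Ins (pw n (f 1) ++ pw n (f 1))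
      (gh (fun i => f (NF.L (i + 1))) (hY n f r false s) (r + 2))
      (gh (fun i => f (NF.L (i + 1))) (hY n f r true s) (r + 2)) r := hIY
  have iX : ∀ a : Bool, Ins (pw n (f 0) ++ pw n (f 0))
      (gh (fun i => f (NF.L i)) (hX n f r a false) (r + 2))
      (gh (fun i => f (NF.L i)) (hX n f r a true) (r + 2)) r := hIX
  have rY : ∀ s : Bool, RF n r (p ++ (wf n τ r false s).flatMap f ++ q) ↔
      RF n r (p ++ (wf n τ r true s).flatMap f ++ q) :=
    fun s => res_ins hinp (iY s) (fY false s) (fY true s)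
  have rX : ∀ a : Bool, RF n r (p ++ (wf n τ r a false).flatMap f ++ q) ↔
      RF n r (p ++ (wf n τ r a true).flatMap f ++ q) :=
    fun a => res_ins hinp (iX a) (fX a false) (fX a true)
  -- insertion of `x^n x^n`: `Ky`
  have kyX : ∀ a : Bool, Ky τ r (p ++ (wf n τ r a false).flatMap f ++ q) →
      Ky τ r (p ++ (wf n τ r a true).flatMap f ++ q) := by
    intro a
    refine h4 τ r hr (pw n (f 0)) (pw n (f 1)) p _ _ _ _ _ r (fun i => f (NF.L i))
      (hX n f r a false) (iX a) (fX a false) (fX a true) ?_ rfl (hX0 a false) ?_ hRX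
      (hhX a false)
    · rw [fX a false]
      exact two_mid rfl hRX (hhX a false)
    · intro c hc
      exact List.mem_append_right _ (List.mem_append_left _ hc)
  refine ⟨?_, ?_, ?_⟩
  · intro s
    constructor
    · rintro ⟨k1, k2⟩
      refine ⟨?_, (rY s).1 k2⟩
      refine h3 τ r hr (pw n (f 0)) (pw n (f 1)) _ _ _ _ _ _ r (fun i => f (NF.L (i + 1)))
        (hY n f r false s) (iY s) (fY false s) (fY true s) ?_ rfl (hr1 false s) ?_ hRY
        (hhY false s) k1
      · rw [fY false s]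
        exact two_mid rfl hRY (hhY false s)
      · intro c hc
        exact List.mem_append_right _ (List.mem_append_left _ hc)
    · rintro ⟨k1, k2⟩
      exact ⟨(h2 τ r (pw n (f 1)) _ _ _ _ r (iY s) _ _ (fY false s) (fY true s)).2.1 k1,
        (rY s).2 k2⟩
  · intro a
    constructor
    · rintro ⟨k1, k2⟩
      exact ⟨kyX a k1, (rX a).1 k2⟩
    · rintro ⟨k1, k2⟩
      exact ⟨(h2 τ r (pw n (f 0)) _ _ _ _ r (iX a) _ _ (fX a false) (fX a true)).2.2 k1,
        (rX a).2 k2⟩
  · constructor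
    · rintro ⟨⟨k1, k2⟩, ⟨k3, -⟩⟩
      refine ⟨⟨?_, (rX true).1 k2⟩, ⟨kyX true k3, (rX true).1 k2⟩⟩
      refine h5 τ r hr (pw n (f 0)) (pw n (f 1)) p _ _ _ _ _ r (fun i => f (NF.L i))
        (hX n f r true false) (iX true) (fX true false) (fX true true) ?_ rfl (hX0 true false)
        ?_ hRX (hhX true false) k1 k3
      · rw [fX true false]
        exact two_mid rfl hRX (hhX true false)
      · intro c hc
        unfold hX
        rw [if_neg one_ne_zero, if_pos hr]
        unfold dp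
        exact List.mem_append_right _ (List.mem_append_left _ (List.mem_append_left _ hc))
    · have hk := h2 τ r (pw n (f 0)) _ _ _ _ r (iX true) _ _ (fX true false) (fX true true)
      rintro ⟨⟨k1, k2⟩, ⟨k3, -⟩⟩
      exact ⟨⟨hk.2.1 k1, (rX true).2 k2⟩, ⟨hk.2.2 k3, (rX true).2 k2⟩⟩

end Pool.Agent.MWGQ.H19C
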