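import Pool.Agent.MWGQ.Stmts

/-!
# MWGQ, row DPE: the doubling pentagon for period `n`
-/

set_option autoImplicit false

namespace Pool.Agent.MWGQ.H19

open Pool.Agent.Helper14_MV Pool.Agent.Helper2_MV Pool.Agent.MWGQ Pool.Agent.MWF
open Pool.Agent.MWK (pre)
open Pool.Agent.MWGN (Nm WC WT Tau Ns nl sg nn N1 N2 K0 Kb Kc T2 gh)

theorem dpe (hV : VclStmt) (h1 : Sa1Stmt) (h2 : Sa2Stmt) (hC : CloStmt) : DpeStmt := by
  intro n β hM hG m τ hT
  by_contra hK
  have hn := hG.pos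
  obtain ⟨K, hKd⟩ : ∃ K : List ℕ → Prop, K = fun w => KB n τ m w ∧ KC n τ m w := ⟨_, rfl⟩
  have hv := fun u v h => hV n β hG τ m hT hK u v h
  have bK : β ≤ gaml K := le_gaml fun u v h hu => by
    rw [hKd] at hu ⊢
    exact ⟨(hv u v h).1 hu.1, (hv u v h).2 hu.2⟩
  have bσ : β ≤ gaml (KB n τ m) := le_gaml fun u v h hu => (hv u v h).1 hu
  have bτ : β ≤ gaml (KC n τ m) := le_gaml fun u v h hu => (hv u v h).2 hu
  have bρ : β ≤ FIC.inf (gaml K) (gaml (KC n τ m)) := fun u v h => ⟨bK u v h, bτ u v h⟩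
  have hc := fun f p q => hC n hn τ m hT f p q
  have s1 : RR (gaml (KB n τ m)) (w0 n τ m true true) (w0 n τ m true false) :=
    RR_gaml fun f p q => (hc f p q).2.1 true
  have s2 : RR (gaml (KB n τ m)) (w0 n τ m false true) (w0 n τ m false false) :=
    RR_gaml fun f p q => (hc f p q).2.1 false
  have t1 : RR (gaml (KC n τ m)) (w0 n τ m true true) (w0 n τ m false true) :=
    RR_gaml fun f p q => (hc f p q).1 true
  have t2 : RR (gaml (KC n τ m)) (w0 n τ m true false) (w0 n τ m false false) :=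
    RR_gaml fun f p q => (hc f p q).1 false
  have r1 : RR (gaml K) (w0 n τ m true false) (w0 n τ m false false) :=
    RR_gaml fun f p q => by
      rw [hKd]
      exact (hc f p q).2.2
  have r2 : RR (FIC.inf (gaml K) (gaml (KC n τ m))) (w0 n τ m true false)
      (w0 n τ m false false) := ⟨r1, t2⟩
  have hs : RR (FIC.sup (FIC.inf (gaml K) (gaml (KC n τ m))) (gaml (KB n τ m)))
      (w0 n τ m true true) (w0 n τ m false true) := by
    have a1 := FIC.le_sup_right (FIC.inf (gaml K) (gaml (KC n τ m))) (gaml (KB n τ m)) _ _ s1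
    have a2 := FIC.le_sup_left (FIC.inf (gaml K) (gaml (KC n τ m))) (gaml (KB n τ m)) _ _ r2
    have a3 := FIC.le_sup_right (FIC.inf (gaml K) (gaml (KC n τ m))) (gaml (KB n τ m)) _ _ s2
    exact FIC.trans _ a1 (FIC.trans _ a2 (FIC.symm _ a3))
  have hle : FIC.inf (gaml K) (gaml (KC n τ m)) ≤ gaml (KC n τ m) := fun u v h => h.2
  have hw : K (w0 n τ m true true) := by
    obtain ⟨c1, c2, c3, c4⟩ := h1 n hn τ m hT
    obtain ⟨d1, d2, d3, d4⟩ := h2 n hn τ m hT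
    rw [hKd]
    exact ⟨⟨⟨⟨c1, c2, d1, d2⟩, c3⟩, ⟨c4, d4⟩⟩, ⟨⟨⟨c1, c2, d1, d2⟩, d3⟩, ⟨c4, d4⟩⟩⟩
  have h3 := pent hM bρ bσ bτ hle (P := K) (fun u v h hu => (gaml_keep h.1).1 hu)
    (fun u v hσ hτ hu => by
      rw [hKd] at hu ⊢
      exact ⟨(gaml_keep hσ).1 hu.1, (gaml_keep hτ).1 hu.2⟩) hs t1 hw
  rw [hKd] at h3
  have h4 := h3.1.1.2
  have h5 : nn (w0 n τ m false true) 0 1 = 0 := by
    unfold nn w0
    rw [if_neg (by simp)]
    show (pre (1 :: (0 :: ww n τ m true)) 1).count 0 = 0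
    rw [Pool.Agent.MWK.pre_cons_self]
    rfl
  omega

end Pool.Agent.MWGQ.H19
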