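import Pool.Agent.MWGQ.Stmts

/-!
# MWGQ, row KPR: `xtzxsz ≈ xtx^nzxsz` implies `kappa`
-/

set_option autoImplicit false

namespace Pool.Agent.MWGQ.H19

open Pool.Agent.Helper14_MV Pool.Agent.Helper2_MV Pool.Agent.MWGQ
open Pool.Agent.MWK (pre)
open Pool.Agent.MWGN (Nm WC WT Tau Ns nl sg nn N1 N2 K0 Kb Kc T2 gh)

variable {β : FIC} {n : ℕ}

theorem ctx (G R : List ℕ) {l l' : List ℕ} (h : RR β l l') :
    RR β (G ++ (l ++ R)) (G ++ (l' ++ R)) :=
  (RR.refl G).append (h.append (RR.refl R))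

theorem pw_succ (k : ℕ) (X : List ℕ) : pw (k + 1) X = X ++ pw k X := by
  simp [pw, List.replicate_succ]

theorem flatMap_Z (g : ℕ → List ℕ) : ∀ k : ℕ, (Z k).flatMap g = pw k (g 0)
  | 0 => rfl
  | k + 1 => by
    rw [pw_succ, ← flatMap_Z g k]
    rfl

theorem p0w (h : P0 n β) (X t z s : List ℕ) :
    RR β (X ++ (t ++ (z ++ (X ++ (s ++ z)))))
      (X ++ (t ++ (pw n X ++ (z ++ (X ++ (s ++ z)))))) := by
  have := RR.sub (fun i => if i = 0 then X else if i = 1 then z else if i = 2 then t else s)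
    (show RR β _ _ from h)
  rw [List.flatMap_append, List.flatMap_append, flatMap_Z] at this
  simpa using this

theorem kw (h : RR β [0, 1, 2, 0, 1] [1, 0, 2, 0, 1]) (X Y t : List ℕ) :
    RR β (X ++ (Y ++ (t ++ (X ++ Y)))) (Y ++ (X ++ (t ++ (X ++ Y)))) := by
  have := h.sub (fun i => if i = 0 then X else if i = 1 then Y else t)
  simpa using this

/-- `Y^n` commutes with `C^(n+1)` if there is a `Y` before -/
theorem comm (hp : PwxStmt) (hg : Gn n β) (G H Y C R : List ℕ) :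
    RR β (G ++ (Y ++ (H ++ (pw n Y ++ (pw (n + 1) C ++ R)))))
      (G ++ (Y ++ (H ++ (pw (n + 1) C ++ (pw n Y ++ R))))) := by
  obtain ⟨-, p2, p3⟩ := hp n β hg
  have hn := hg.pos
  have hm : n ≡ 2 * n [MOD n] := by
    unfold Nat.ModEq
    rw [Nat.mod_self, Nat.mul_mod_left]
  have h1 : RR β (G ++ (Y ++ (H ++ (pw n Y ++ (pw (n + 1) C ++ R)))))
      (G ++ (Y ++ (H ++ (pw (2 * n) Y ++ (pw (n + 1) C ++ R))))) := by
    have := ctx G (pw (n + 1) C ++ R) (p2 Y H n (2 * n) hn (by omega) hm)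
    simpa only [List.append_assoc] using this
  have h2 : RR β (G ++ (Y ++ (H ++ (pw (2 * n) Y ++ (pw (n + 1) C ++ R)))))
      (G ++ (Y ++ (H ++ (pw (n + 1) C ++ (pw (2 * n) Y ++ R))))) := by
    have := ctx (G ++ (Y ++ H)) R (p3 Y C (2 * n) (n + 1) (by omega) (by omega))
    simpa only [List.append_assoc] using this
  have h3 : RR β (G ++ (Y ++ (H ++ (pw (n + 1) C ++ (pw n Y ++ R)))))
      (G ++ (Y ++ (H ++ (pw (n + 1) C ++ (pw (2 * n) Y ++ R))))) := by
    have := ctx G R (p2 Y (H ++ pw (n + 1) C) n (2 * n) hn (by omega) hm)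
    simpa only [List.append_assoc] using this
  exact β.trans (β.trans h1 h2) h3.symm

/-- the rest from `L j` on -/
def Rr (n : ℕ) (L C : ℕ → List ℕ) (T : List ℕ) (j k : ℕ) : List ℕ :=
  (List.range' j k).flatMap (fun i => L i ++ pw (n + 1) (C i)) ++ T

theorem Rr_succ (L C : ℕ → List ℕ) (T : List ℕ) (j k : ℕ) :
    Rr n L C T j (k + 1) = L j ++ (pw (n + 1) (C j) ++ Rr n L C T (j + 1) k) := by
  simp [Rr, List.range'_succ]

theorem claim (hpw : PwxStmt) (hg : Gn n β) (hp : P0 n β) (Y B : List ℕ) (S L C : ℕ → List ℕ)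
    (τ : List ℕ) (m : ℕ) (hτ : Tau τ m) : ∀ (k j : ℕ), j + k = m → ∀ G H : List ℕ,
      RR β (G ++ (Y ++ (H ++ Rr n L C (L m ++ (Y ++ (B ++ τ.flatMap (fun i => S i ++ L i)))) j k)))
        (G ++ (Y ++ (H ++ (pw n Y ++
          Rr n L C (L m ++ (Y ++ (B ++ τ.flatMap (fun i => S i ++ L i)))) j k))))
  | 0, j, e, G, H => by
    have ej : j = m := by omega
    subst ej
    obtain ⟨s, t, hst⟩ := List.append_of_mem ((hτ.2 j).2 le_rfl)
    have h1 := ctx G (t.flatMap (fun i => S i ++ L i))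
      (p0w hp Y H (L j) (B ++ (s.flatMap (fun i => S i ++ L i) ++ S j)))
    rw [hst]
    simpa [Rr, List.append_assoc] using h1
  | k + 1, j, e, G, H => by
    have ih := claim hpw hg hp Y B S L C τ m hτ k (j + 1) (by omega)
    obtain ⟨s, t, hst⟩ := List.append_of_mem ((hτ.2 j).2 (by omega))
    have hT : ∃ U V, Rr n L C (L m ++ (Y ++ (B ++ τ.flatMap (fun i => S i ++ L i)))) (j + 1) k =
        U ++ (L j ++ V) := by
      refine ⟨(List.range' (j + 1) k).flatMap (fun i => L i ++ pw (n + 1) (C i)) ++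
        (L m ++ (Y ++ (B ++ (s.flatMap (fun i => S i ++ L i) ++ S j)))),
        t.flatMap (fun i => S i ++ L i), ?_⟩
      rw [hst]
      simp [Rr, List.append_assoc]
    rw [Rr_succ]
    generalize Rr n L C (L m ++ (Y ++ (B ++ τ.flatMap (fun i => S i ++ L i)))) (j + 1) k = R at *
    obtain ⟨U, V, hR⟩ := hT
    generalize L j = l at *
    -- a power of `Y` behind the block
    have h1 : RR β (G ++ (Y ++ (H ++ (l ++ (pw (n + 1) (C j) ++ R)))))
        (G ++ (Y ++ (H ++ (l ++ (pw (n + 1) (C j) ++ (pw n Y ++ R)))))) := by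
      have := ih G (H ++ (l ++ pw (n + 1) (C j)))
      simpa only [List.append_assoc] using this
    have h2 : RR β (G ++ (Y ++ (H ++ (l ++ (pw n Y ++ (pw (n + 1) (C j) ++ R))))))
        (G ++ (Y ++ (H ++ (l ++ (pw (n + 1) (C j) ++ (pw n Y ++ R)))))) := by
      have := comm hpw hg G (H ++ l) Y (C j) R
      simpa only [List.append_assoc] using this
    have hY : pw n Y = Y ++ pw (n - 1) Y := by
      obtain ⟨n', rfl⟩ := Nat.exists_eq_add_of_le' hg.pos
      rw [pw_succ, Nat.add_sub_cancel]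
    have h3 : RR β (G ++ (Y ++ (H ++ (l ++ (pw n Y ++ (pw (n + 1) (C j) ++ R))))))
        (G ++ (Y ++ (H ++ (pw n Y ++ (l ++ (pw n Y ++ (pw (n + 1) (C j) ++ R))))))) := by
      have := ctx G V (p0w hp Y H l (pw (n - 1) Y ++ (pw (n + 1) (C j) ++ U)))
      have e1 : pw n Y ++ (pw (n + 1) (C j) ++ R) =
          Y ++ ((pw (n - 1) Y ++ (pw (n + 1) (C j) ++ U)) ++ (l ++ V)) := by
        rw [hY, hR]
        simp only [List.append_assoc]
      rw [e1]
      simpa only [List.append_assoc] using this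
    have h4 : RR β (G ++ (Y ++ (H ++ (pw n Y ++ (l ++ (pw n Y ++ (pw (n + 1) (C j) ++ R)))))))
        (G ++ (Y ++ (H ++ (pw n Y ++ (l ++ (pw (n + 1) (C j) ++ (pw n Y ++ R))))))) := by
      have := comm hpw hg G (H ++ (pw n Y ++ l)) Y (C j) R
      simpa only [List.append_assoc] using this
    have h5 : RR β (G ++ (Y ++ (H ++ (pw n Y ++ (l ++ (pw (n + 1) (C j) ++ R))))))
        (G ++ (Y ++ (H ++ (pw n Y ++ (l ++ (pw (n + 1) (C j) ++ (pw n Y ++ R))))))) := by
      have := ih G (H ++ (pw n Y ++ (l ++ pw (n + 1) (C j))))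
      simpa only [List.append_assoc] using this
    exact β.trans (β.trans (β.trans (β.trans h1 h2.symm) h3) h4) h5.symm

theorem bd_eq (L C : ℕ → List ℕ) (T : List ℕ) (m : ℕ) : bd n L C m ++ T = Rr n L C T 0 m := by
  simp [bd, Rr, List.range_eq_range']

theorem kpr (h : PwxStmt) : KprStmt := by
  intro n β hg hp m τ hτ X Y A B S L C
  have e : kr n X Y A B S L C τ m = A ++ (X ++ Rr n L C (L m ++ (Y ++ (B ++
      τ.flatMap (fun i => S i ++ L i)))) 0 m) := by
    unfold kr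
    rw [bd_eq]
  rw [e]
  have h0 := claim h hg hp Y B S L C τ m hτ m 0 (by omega)
  generalize Rr n L C (L m ++ (Y ++ (B ++ τ.flatMap (fun i => S i ++ L i)))) 0 m = R at *
  have hY : pw n Y = Y ++ pw (n - 1) Y := by
    have hn := hg.pos
    obtain ⟨n', rfl⟩ := Nat.exists_eq_add_of_le' hn
    rw [pw_succ, Nat.add_sub_cancel]
  have h1 : RR β (X ++ (Y ++ (A ++ (X ++ R)))) (X ++ (Y ++ (A ++ (X ++ (pw n Y ++ R))))) := by
    have := h0 X (A ++ X)
    simpa only [List.append_assoc] using this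
  have h2 : RR β (Y ++ (X ++ (A ++ (X ++ R)))) (Y ++ (X ++ (A ++ (X ++ (pw n Y ++ R))))) := by
    have := h0 [] (X ++ (A ++ X))
    simpa only [List.append_assoc, List.nil_append] using this
  have h3 : RR β (X ++ (Y ++ (A ++ (X ++ (pw n Y ++ R)))))
      (Y ++ (X ++ (A ++ (X ++ (pw n Y ++ R))))) := by
    have := ctx [] (pw (n - 1) Y ++ R) (kw hg.k X Y A)
    rw [hY]
    simpa only [List.append_assoc, List.nil_append] using this
  exact β.trans (β.trans h1 h3) h2.symm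

end Pool.Agent.MWGQ.H19
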