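import Pool.Agent.MWGQ.StmtsC

/-!
# Row VEQ of block MWGQ: no `x` inside the run is kept by `β`
-/

set_option autoImplicit false

namespace Pool.Agent.MWGQ.H19V

open Pool.Agent.Helper14_MV Pool.Agent.Helper2_MV Pool.Agent.MWGQ
open Pool.Agent.MWK (pre)
open Pool.Agent.MWGN (Nm WC WT Tau Ns nl sg nn gh Ins WR Nr nr NF tw KF Kx Ky)

theorem flatMap_congr' {l : List ℕ} {f g : ℕ → List ℕ} (h : ∀ a ∈ l, f a = g a) :
    l.flatMap f = l.flatMap g := by
  induction l with
  | nil => rfl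
  | cons a l ih =>
    rw [List.flatMap_cons, List.flatMap_cons, h a List.mem_cons_self,
      ih (fun b hb => h b (List.mem_cons_of_mem _ hb))]

/-- `ws` only depends on the values `s i`, `i < r` -/
theorem ws_congr (n : ℕ) (X B : List ℕ) (S L C : ℕ → List ℕ) (s s' : ℕ → Bool) (τ : List ℕ)
    (r : ℕ) (h : ∀ i < r, s i = s' i) : ws n X B S L C s τ r = ws n X B S L C s' τ r := by
  unfold ws bs
  rw [flatMap_congr' (l := List.range r)
    (f := fun i => L i ++ (pw (n + 1) (C i) ++ (if s i then pw (2 * n) X else [])))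
    (g := fun i => L i ++ (pw (n + 1) (C i) ++ (if s' i then pw (2 * n) X else [])))]
  intro i hi
  rw [h i (List.mem_range.mp hi)]

theorem veq (hNof : MWGN.NofStmt) (hNrf : NrfStmt) (hNog : NogStmt) (hDsr : MWGN.DsrStmt)
    (hRnf : RnfStmt) (hFsp : FspStmt) (hCnt : CntStmt) : VeqStmt := by
  intro n β hg ν τ r hN hτ hm hF w w' h wr wt wr' wt' hres he
  by_contra hne
  have nd := hDsr ν τ r hN hτ w wr wt
  obtain ⟨i, j, U, f, hi, hj, hU, hf, hw, hiff⟩ := hNof ν τ r hN hτ w wr wt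
  obtain ⟨i', j', U', f', hi', hj', hU', hf', hw', hiff'⟩ := hNof ν τ r hN hτ w' wr' wt'
  obtain ⟨a1, a2⟩ := hNrf ν τ r hτ nd w i j U f (fun s hs => (hU s hs).1) hw
  obtain ⟨b1, b2⟩ := hNrf ν τ r hτ nd w' i' j' U' f' (fun s hs => (hU' s hs).1) hw'
  have hc : ∀ c, w.count c ≡ w'.count c [MOD n] := fun c => (hCnt n β hg w w' h c).2.2
  have g1 := hNog n β hg ν τ r nd hτ i j U f hi hj
    (fun s hs => ⟨(hU s hs).1, (hU s hs).2, by
      rw [a1 s hs]
      exact hres.2 s hs⟩)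
    (fun s hs => ⟨hf s hs, by
      have h1 := hres.1 s hs
      rw [← a2 s hs] at h1
      exact Nat.ModEq.add_right_cancel' 1 h1⟩)
  have g2 := hNog n β hg ν τ r nd hτ i' j' U' f' hi' hj'
    (fun s hs => ⟨(hU' s hs).1, (hU' s hs).2, by
      rw [b1 s hs]
      exact (hc _).symm.trans (hres.2 s hs)⟩)
    (fun s hs => ⟨hf' s hs, by
      have h1 := (hc _).symm.trans (hres.1 s hs)
      rw [← b2 s hs] at h1
      exact Nat.ModEq.add_right_cancel' 1 h1⟩)
  rw [← hw] at g1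
  rw [← hw'] at g2
  have h1 := RR.sub (fun c => if c = ν.x then List.replicate (2 * n) ν.x else [c])
    (RR.filter (fun c => decide (c ∈ nr ν r)) h)
  have h2 := β.trans (β.trans g1.symm h1) g2
  have hfalse : ws n [ν.x] [ν.b] (sg ν.S) (sg ν.L) (sg ν.C) (fun s => decide (ν.x ∈ U s)) τ r =
      ws n [ν.x] [ν.b] (sg ν.S) (sg ν.L) (sg ν.C) (fun _ => false) τ r := by
    apply ws_congr
    intro s hs
    exact decide_eq_false (hiff.1 he s hs)
  have hex : ∃ s < r, decide (ν.x ∈ U' s) = true := by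
    by_contra hno
    apply hne
    apply hiff'.2
    intro s hs hx
    exact hno ⟨s, hs, decide_eq_true hx⟩
  have h3 := hFsp n β hg r hm τ hτ (fun s => decide (ν.x ∈ U' s)) hex [ν.x] [ν.b] (sg ν.S)
    (sg ν.L) (sg ν.C)
  apply hF
  apply hRnf n β ν τ r hτ nd
  rw [← hfalse]
  exact β.trans h2 h3

end Pool.Agent.MWGQ.H19V
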